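import Pool.Agent.X222.KS.Wfa
import Pool.Agent.X222.KS.Tri

/-!
# MP_836b05_lc: delayed k-server problem versus ordinary k-server problem

`comp c0` is the competitiveness of the `k`-server problem with initial configuration `c0`,
`compD false c0 f0` and `compD true c0 f0` are the competitivenesses of the versions (a) and (b) of
the delayed problem with initially frozen server `f0` (definitions in `Pool.Agent.X222.KS.Defs`).

* `C_a ≤ C_{M,k}` for every metric space `M` and every `k ≥ 2`;
* `C_b ≤ C_{M × ℝ, k}` (maximum metric on `M × ℝ`) and `C_b ≤ 2 k - 1` for every `M`;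
* `C_b ≤ C_{M,k}` if `M` has no isolated point;
* for the space of three points at mutual distance 1 and `k = 3`: `C_{M,k} = 0` and `C_b ≥ 4/3`, so the
  inequality of Q1 as it is stated (for every `M` and `k ≥ 2`) fails.

Proof of the inequalities: a lazy ordinary algorithm `A` is fed, at the time `t + 1`, with the
requests `x, y, x, y, …` where `x` is the previous request and `y` is the new one (in version (b), if
both agree, a point `y ≠ x` very close to `x`), until it covers both points; this happens since `A`
pays at least `dist x y` for each of these requests otherwise, while the offline cost is bounded.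
The delayed algorithm follows the configurations of `A` with permuted servers. The bound `2 k - 1` uses
the work function algorithm (Koutsoupias and Papadimitriou; formalised in `Pool.Agent.X185.KS.Work`). -/

namespace Pool.Agent.Results.MP_836b05_lc.DelayedServers

open Pool.Agent.X222.KS

universe u

theorem result :
    (∀ (M : Type u) [MetricSpace M] (k : ℕ), 2 ≤ k → ∀ (c0 : Fin k → M) (f0 : Fin k),
      compD false c0 f0 ≤ comp c0 ∧
      compD true c0 f0 ≤ comp (fun i => ((c0 i, (0 : ℝ)) : M × ℝ)) ∧
      compD true c0 f0 ≤ ENNReal.ofReal (2 * k - 1) ∧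
      ((∀ x : M, ∀ ε : ℝ, 0 < ε → ∃ y, y ≠ x ∧ dist y x < ε) → compD true c0 f0 ≤ comp c0)) ∧
    ∃ (M : Type) (_ : MetricSpace M), Nat.card M = 3 ∧ (∀ x y : M, x ≠ y → dist x y = 1) ∧
      ∀ (c0 : Fin 3 → M) (f0 : Fin 3),
        comp c0 = 0 ∧ ENNReal.ofReal (4 / 3) ≤ compD true c0 f0 := by
  refine ⟨fun M _ k hk c0 f0 => ⟨?_, ?_, compD_le hk true c0 f0, fun hM => ?_⟩, Tri, inferInstance, ?_, ?_, ?_⟩
  · exact comp_le false hk c0 f0 (fun h => by simp at h)
  · exact compD_prod hk c0 f0
  · refine comp_le true hk c0 f0 (fun _ x ε hε => ?_)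
    obtain ⟨y, h1, h2⟩ := hM x ε hε
    exact ⟨y, h1, h2.le⟩
  · rw [Nat.card_eq_fintype_card]; rfl
  · intro x y h
    rw [dist_tri, if_neg h]
  · exact fun c0 f0 => ⟨comp_tri c0, compD_tri c0 f0⟩

end Pool.Agent.Results.MP_836b05_lc.DelayedServers
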